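import Pool.Agent.helper76.MC.Defs

/-! # Project MC, module M2: the groups `Gam` -/

namespace Pool.Agent.helper76.MC

open Finset Pool.Agent.helper34.DH Pool.Agent.helper76.FV Pool.Agent.helper76.LP
open Pool.Agent.helper76.UR
open Matrix (SpecialLinearGroup)

theorem M2_mem_gam {D p : ℕ} [NeZero D] (hp : p ∣ D) (u : (ZMod D)ˣ) :
    u ∈ Gam D p ↔ ∃ k : ℤ, (u : ZMod D) = ((1 + (D / p : ℕ) * k : ℤ) : ZMod D) := by
  unfold Gam
  rw [dif_pos hp, MonoidHom.mem_ker]
  constructor
  · intro h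
    have h1 : (ZMod.castHom (Nat.div_dvd_of_dvd hp) (ZMod (D / p))) (u : ZMod D) = 1 := by
      have := congrArg (fun z : (ZMod (D / p))ˣ => (z : ZMod (D / p))) h
      simpa [ZMod.unitsMap_def] using this
    have h2 : ((((u : ZMod D).val : ℤ) - 1 : ℤ) : ZMod (D / p)) = 0 := by
      have h3 : (ZMod.castHom (Nat.div_dvd_of_dvd hp) (ZMod (D / p))) (u : ZMod D) =
          (((u : ZMod D).val : ℤ) : ZMod (D / p)) := by
        conv_lhs => rw [← ZMod.natCast_zmod_val (u : ZMod D)]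
        rw [map_natCast]
        push_cast
        rfl
      rw [Int.cast_sub, ← h3, h1]
      simp
    obtain ⟨k, hk⟩ := (ZMod.intCast_zmod_eq_zero_iff_dvd _ _).1 h2
    refine ⟨k, ?_⟩
    rw [← hk]
    push_cast
    rw [add_sub_cancel, ZMod.natCast_zmod_val]
  · rintro ⟨k, hk⟩
    ext
    rw [ZMod.unitsMap_def]
    change (ZMod.castHom (Nat.div_dvd_of_dvd hp) (ZMod (D / p))) (u : ZMod D) = 1
    rw [hk, map_intCast, Int.cast_add, Int.cast_mul, Int.cast_natCast, ZMod.natCast_self,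
      zero_mul, add_zero, Int.cast_one]

theorem lift_sq (D m : ℕ) [NeZero D] [NeZero m] (hD : D ∣ m) (w : (ZMod D)ˣ) :
    ∃ t : (ZMod m)ˣ, IsSquare t ∧ ZMod.unitsMap hD t = w * w := by
  obtain ⟨t, ht⟩ := ZMod.unitsMap_surjective hD w
  exact ⟨t * t, ⟨t, rfl⟩, by rw [map_mul, ht]⟩

theorem M2_two {D : ℕ} [NeZero D] (h4 : 4 ∣ D) (u : (ZMod D)ˣ) (hu : u ∈ Gam D 2) :
    u = 1 ∨ (u : ZMod D) = ((1 + (D / 2 : ℕ) : ℤ) : ZMod D) := by
  have h2 : 2 ∣ D := Dvd.dvd.trans (by norm_num) h4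
  obtain ⟨k, hk⟩ := (M2_mem_gam h2 u).1 hu
  obtain ⟨e, he⟩ := h2
  have he' : D / 2 = e := by omega
  rcases Int.even_or_odd' k with ⟨j, hj | hj⟩
  · left
    ext
    rw [hk, hj, he']
    have : ((1 + (e : ℕ) * (2 * j) : ℤ) : ZMod D) = 1 + ((D : ℕ) : ZMod D) * (j : ZMod D) := by
      rw [he]
      push_cast
      ring
    rw [this]
    simp
  · right
    rw [hk, hj, he']
    have : ((1 + (e : ℕ) * (2 * j + 1) : ℤ) : ZMod D) =
        ((1 + (e : ℕ) : ℤ) : ZMod D) + ((D : ℕ) : ZMod D) * (j : ZMod D) := by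
      have h3 : ((D : ℕ) : ZMod D) = ((2 * e : ℕ) : ZMod D) := by rw [← he]
      rw [h3]
      push_cast
      ring
    rw [this]
    simp

theorem gam_sq (D : ℕ) [NeZero D] (hD : Lform D) (h3 : Three D) (p : ℕ) (hp : p ∈ D.primeFactors)
    (ν : (ZMod D)ˣ) (h1 : ν ∈ Gam D p) (h2 : ν * ν = 1) (h3' : ν ≠ 1) (γ : (ZMod D)ˣ)
    (hγ : γ ∈ Gam D p) : ∃ s ∈ Gam D p, γ = s * s ∨ γ = s * s * ν := by
  have hpp : p.Prime := Nat.prime_of_mem_primeFactors hp
  have hpd : p ∣ D := Nat.dvd_of_mem_primeFactors hp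
  rcases h3 p hpp hpd with rfl | hp4
  · -- the prime two
    have h4 : 4 ∣ D := by
      have := hD.1
      omega
    rcases M2_two h4 γ hγ with h | h
    · exact ⟨1, one_mem _, Or.inl (by rw [h, mul_one])⟩
    · rcases M2_two h4 ν h1 with h' | h'
      · exact absurd h' h3'
      · refine ⟨1, one_mem _, Or.inr ?_⟩
        rw [one_mul, one_mul]
        ext
        rw [h, h']
  · have hodd : Odd p := by
      rw [Nat.odd_iff]
      omega
    have : Fact p.Prime := ⟨hpp⟩
    have hcop : Nat.Coprime p (D / p) := by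
      rw [Nat.Prime.coprime_iff_not_dvd hpp]
      intro h
      obtain ⟨e, he⟩ := h
      apply hD.2.1 p hpp hodd
      refine ⟨e, ?_⟩
      have := Nat.mul_div_cancel' hpd
      rw [he] at this
      rw [← this]
      ring
    -- the key: an element of `Gam` congruent to `1` modulo `p` is `1`
    have key : ∀ u ∈ Gam D p, ∀ k : ℤ, (u : ZMod D) = ((1 + (D / p : ℕ) * k : ℤ) : ZMod D) →
        (p : ℤ) ∣ (D / p : ℕ) * k → u = 1 := by
      intro u hu k hk hdvd
      have h5 : (p : ℤ) ∣ k := by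
        refine IsCoprime.dvd_of_dvd_mul_left ?_ hdvd
        exact Nat.isCoprime_iff_coprime.2 hcop
      obtain ⟨j, hj⟩ := h5
      ext
      rw [hk, hj]
      have h6 : (D : ℤ) = (D / p : ℕ) * p := by
        rw [← Nat.cast_mul, Nat.div_mul_cancel hpd]
      have h7 : (1 + (D / p : ℕ) * (p * j) : ℤ) = 1 + D * j := by
        rw [h6]
        push_cast
        ring
      rw [h7]
      push_cast
      simp
    -- square roots of one
    have key2 : ∀ u ∈ Gam D p, u * u = 1 → u ≠ 1 → ∀ k : ℤ,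
        (u : ZMod D) = ((1 + (D / p : ℕ) * k : ℤ) : ZMod D) →
        (p : ℤ) ∣ (D / p : ℕ) * k + 2 := by
      intro u hu huu hu1 k hk
      have h5 : (((1 + (D / p : ℕ) * k) * (1 + (D / p : ℕ) * k) - 1 : ℤ) : ZMod D) = 0 := by
        have h6 := congrArg (fun z : (ZMod D)ˣ => (z : ZMod D)) huu
        simp only [Units.val_mul, Units.val_one] at h6
        rw [Int.cast_sub, Int.cast_mul, ← hk, h6]
        simp
      rw [ZMod.intCast_zmod_eq_zero_iff_dvd] at h5
      have h6 : (p : ℤ) ∣ ((D / p : ℕ) * k) * ((D / p : ℕ) * k + 2) := by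
        have h7 : (p : ℤ) ∣ (1 + (D / p : ℕ) * k) * (1 + (D / p : ℕ) * k) - 1 :=
          dvd_trans (Int.natCast_dvd_natCast.2 hpd) h5
        have h8 : ((D / p : ℕ) * k : ℤ) * ((D / p : ℕ) * k + 2) =
          (1 + (D / p : ℕ) * k) * (1 + (D / p : ℕ) * k) - 1 := by ring
        rw [h8]
        exact h7
      rcases (Nat.prime_iff_prime_int.1 hpp).dvd_or_dvd h6 with h7 | h7
      · exact absurd (key u hu k hk h7) hu1
      · exact h7
    have key3 : ∀ u ∈ Gam D p, u * u = 1 → u ≠ 1 → u = ν := by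
      intro u hu huu hu1
      obtain ⟨k, hk⟩ := (M2_mem_gam hpd u).1 hu
      obtain ⟨l, hl⟩ := (M2_mem_gam hpd ν).1 h1
      have h5 := key2 u hu huu hu1 k hk
      have h6 := key2 ν h1 h2 h3' l hl
      have h7 : (p : ℤ) ∣ (D / p : ℕ) * (k - l) := by
        have := dvd_sub h5 h6
        have h8 : ((D / p : ℕ) * k + 2 - ((D / p : ℕ) * l + 2) : ℤ) = (D / p : ℕ) * (k - l) := by
          ring
        rw [h8] at this
        exact this
      have h8 : (p : ℤ) ∣ k - l := by
        refine IsCoprime.dvd_of_dvd_mul_left ?_ h7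
        exact Nat.isCoprime_iff_coprime.2 hcop
      obtain ⟨j, hj⟩ := h8
      ext
      rw [hk, hl]
      have h9 : (D : ℤ) = (D / p : ℕ) * p := by
        rw [← Nat.cast_mul, Nat.div_mul_cancel hpd]
      have h10 : (1 + (D / p : ℕ) * k : ℤ) = (1 + (D / p : ℕ) * l) + D * j := by
        have : k = l + p * j := by linarith
        rw [this, h9]
        push_cast
        ring
      rw [h10, Int.cast_add, Int.cast_mul]
      simp
    -- Fermat
    have hpow : γ ^ (p - 1) = 1 := by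
      obtain ⟨k, hk⟩ := (M2_mem_gam hpd (γ ^ (p - 1))).1 (Subgroup.pow_mem _ hγ _)
      refine key _ (Subgroup.pow_mem _ hγ _) k hk ?_
      obtain ⟨l, hl⟩ := (M2_mem_gam hpd γ).1 hγ
      have h5 : (((1 + (D / p : ℕ) * l) ^ (p - 1) - (1 + (D / p : ℕ) * k) : ℤ) : ZMod D) = 0 := by
        rw [Int.cast_sub, Int.cast_pow, ← hl, ← hk]
        simp
      rw [ZMod.intCast_zmod_eq_zero_iff_dvd] at h5
      have h6 : (p : ℤ) ∣ (1 + (D / p : ℕ) * l) ^ (p - 1) - (1 + (D / p : ℕ) * k) :=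
        dvd_trans (Int.natCast_dvd_natCast.2 hpd) h5
      have h7 : IsCoprime (1 + (D / p : ℕ) * l : ℤ) (p : ℤ) := by
        have hu : IsUnit ((1 + (D / p : ℕ) * l : ℤ) : ZMod D) := by
          rw [← hl]
          exact γ.isUnit
        have h8 : IsUnit ((1 + (D / p : ℕ) * l : ℤ) : ZMod p) := by
          have := hu.map (ZMod.castHom hpd (ZMod p))
          rwa [map_intCast] at this
        rw [ZMod.coe_int_isUnit_iff_isCoprime] at h8
        exact h8.symm
      have h8 := Int.ModEq.pow_card_sub_one_eq_one hpp h7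
      have h9 : (p : ℤ) ∣ (1 + (D / p : ℕ) * l) ^ (p - 1) - 1 := by
        exact (Int.modEq_iff_dvd.1 h8.symm)
      have h10 := dvd_sub h9 h6
      have h11 : ((1 + (D / p : ℕ) * l) ^ (p - 1) - 1 -
        ((1 + (D / p : ℕ) * l) ^ (p - 1) - (1 + (D / p : ℕ) * k)) : ℤ) = (D / p : ℕ) * k := by
        ring
      rw [h11] at h10
      exact h10
    -- conclusion
    obtain ⟨n, hn⟩ : ∃ n, p - 1 = 2 * (2 * n + 1) := ⟨p / 4, by omega⟩
    set x := γ ^ (2 * n + 1) with hx
    have hxx : x * x = 1 := by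
      rw [hx, ← pow_add, ← hpow, hn]
      congr 1
      ring
    have hxm : x ∈ Gam D p := Subgroup.pow_mem _ hγ _
    have hs : γ ^ (n + 1) ∈ Gam D p := Subgroup.pow_mem _ hγ _
    have hgx : γ ^ (n + 1) * γ ^ (n + 1) = γ * x := by
      rw [hx, ← pow_add, ← pow_succ']
      congr 1
      ring
    refine ⟨γ ^ (n + 1), hs, ?_⟩
    by_cases hx1 : x = 1
    · left
      rw [hgx, hx1, mul_one]
    · right
      rw [hgx, key3 x hxm hxx hx1, mul_assoc, h2, mul_one]

theorem gam_lift (D m : ℕ) [NeZero D] [NeZero m] (hD : D ∣ m) (h4 : D % 4 ≠ 2)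
    (hn : ¬ Lform D) : ∃ p ∈ D.primeFactors, ∀ γ ∈ Gam D p, ∃ t : (ZMod m)ˣ,
      (IsSquare t ∨ IsStar m t) ∧ ZMod.unitsMap hD t = γ := by
  have hD0 : D ≠ 0 := NeZero.ne D
  have hm0 : m ≠ 0 := NeZero.ne m
  unfold Lform at hn
  by_cases hodd : ∃ p, p.Prime ∧ Odd p ∧ p ^ 2 ∣ D
  · obtain ⟨p, hpp, hpo, e, he⟩ := hodd
    have hpd : p ∣ D := ⟨p * e, by rw [he]; ring⟩
    refine ⟨p, Nat.mem_primeFactors.2 ⟨hpp, hpd, hD0⟩, fun γ hγ => ?_⟩
    have hdp : D / p = p * e := by
      rw [he, pow_two, mul_assoc, Nat.mul_div_cancel_left _ hpp.pos]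
    obtain ⟨k, hk⟩ := (M2_mem_gam hpd γ).1 hγ
    have hpow : γ ^ p = 1 := by
      ext
      rw [Units.val_pow_eq_pow_val, hk, hdp, Units.val_one]
      obtain ⟨c, hc⟩ : ∃ c : ℤ, (1 + ((p * e : ℕ) : ℤ) * k) ^ p =
          1 + p * (((p * e : ℕ) : ℤ) * k) + c * (((p * e : ℕ) : ℤ) * k) ^ 2 := by
        obtain ⟨c, hc⟩ := Polynomial.powAddExpansion (1 : ℤ) (((p * e : ℕ) : ℤ) * k) p
        refine ⟨c, ?_⟩
        rw [hc]
        simp
      rw [← Int.cast_pow, hc]
      have h5 : (1 + p * (((p * e : ℕ) : ℤ) * k) + c * (((p * e : ℕ) : ℤ) * k) ^ 2 : ℤ) =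
          1 + D * (k + c * e * k ^ 2) := by
        rw [he]
        push_cast
        ring
      rw [h5]
      push_cast
      simp
    obtain ⟨n, hn2⟩ := hpo
    obtain ⟨t, ht, ht2⟩ := lift_sq D m hD (γ ^ (n + 1))
    refine ⟨t, Or.inl ht, ?_⟩
    rw [ht2, ← pow_add]
    have : n + 1 + (n + 1) = p + 1 := by omega
    rw [this, pow_succ, hpow, one_mul]
  · have h8 : 8 ∣ D := by
      by_contra h
      apply hn
      refine ⟨h4, fun p hp hpo hpd => hodd ⟨p, hp, hpo, hpd⟩, h⟩
    have h2D : 2 ∣ D := Dvd.dvd.trans (by norm_num) h8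
    have h4D : 4 ∣ D := Dvd.dvd.trans (by norm_num) h8
    refine ⟨2, Nat.mem_primeFactors.2 ⟨Nat.prime_two, h2D, hD0⟩, fun γ hγ => ?_⟩
    rcases M2_two h4D γ hγ with h | h
    · exact ⟨1, Or.inl ⟨1, (mul_one _).symm⟩, by rw [map_one, h]⟩
    · by_cases h16 : 16 ∣ D
      · obtain ⟨e, he⟩ := h16
        have hsq : (((1 + 4 * e : ℕ) : ZMod D)) * ((1 + 4 * e : ℕ) : ZMod D) = (γ : ZMod D) := by
          rw [h]
          have h5 : D / 2 = 8 * e := by omega
          rw [h5, ← Nat.cast_mul]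
          have h6 : (1 + 4 * e) * (1 + 4 * e) = (1 + 8 * e) + D * e := by
            rw [he]
            ring
          rw [h6]
          push_cast
          simp
        have hu : IsUnit ((1 + 4 * e : ℕ) : ZMod D) := by
          have := γ.isUnit
          rw [← hsq] at this
          exact isUnit_of_mul_isUnit_left this
        obtain ⟨w, hw⟩ := hu
        obtain ⟨t, ht, ht2⟩ := lift_sq D m hD w
        refine ⟨t, Or.inl ht, ?_⟩
        rw [ht2]
        ext
        rw [Units.val_mul, hw, hsq]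
      · -- `8` exactly divides `D`
        have hm' : ordCompl[2] m ≠ 0 := (Nat.ordCompl_pos 2 hm0).ne'
        have hmo : ¬ 2 ∣ ordCompl[2] m := Nat.not_dvd_ordCompl Nat.prime_two hm0
        set m' := ordCompl[2] m with hm'd
        obtain ⟨d, hd⟩ := h8
        have hdo : ¬ 2 ∣ d := by
          rintro ⟨c, hc⟩
          exact h16 ⟨c, by rw [hd, hc]; ring⟩
        have hdm : d ∣ m' := by
          have h5 : d ∣ m := Dvd.dvd.trans ⟨8, by rw [hd]; ring⟩ hD
          have h6 : Nat.Coprime d (2 ^ (m.factorization 2)) := by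
            apply Nat.Coprime.pow_right
            rw [Nat.coprime_comm, Nat.Prime.coprime_iff_not_dvd Nat.prime_two]
            exact hdo
          have h7 : m = 2 ^ (m.factorization 2) * m' := (Nat.ordProj_mul_ordCompl_eq_self m 2).symm
          rw [h7] at h5
          exact h6.dvd_of_dvd_mul_left h5
        have hcop : Nat.Coprime (1 + 4 * m') m := by
          have h7 : m = 2 ^ (m.factorization 2) * m' := (Nat.ordProj_mul_ordCompl_eq_self m 2).symm
          rw [h7]
          apply Nat.Coprime.mul_right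
          · apply Nat.Coprime.pow_right
            rw [Nat.coprime_comm, Nat.Prime.coprime_iff_not_dvd Nat.prime_two]
            omega
          · rw [Nat.coprime_comm]
            have : Nat.Coprime m' (1 + m' * 4) := by
              rw [Nat.coprime_add_mul_left_right]
              exact Nat.coprime_one_right _
            rwa [mul_comm] at this
        refine ⟨ZMod.unitOfCoprime _ hcop, Or.inr ?_, ?_⟩
        · unfold IsStar
          rw [ZMod.coe_unitOfCoprime]
        · ext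
          rw [ZMod.unitsMap_def]
          change (ZMod.castHom hD (ZMod D)) ((ZMod.unitOfCoprime (1 + 4 * m') hcop : (ZMod m)ˣ) : ZMod m) = (γ : ZMod D)
          rw [ZMod.coe_unitOfCoprime, map_natCast, h]
          obtain ⟨c, hc⟩ := hdm
          have hco : ¬ 2 ∣ c := by
            rintro ⟨c', hc'⟩
            exact hmo ⟨d * c', by rw [hc, hc']; ring⟩
          obtain ⟨c', hc'⟩ : ∃ c', c = 2 * c' + 1 := ⟨c / 2, by omega⟩
          have h5 : D / 2 = 4 * d := by omega
          have h6 : 1 + 4 * m' = (1 + 4 * d) + D * c' := by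
            rw [hc, hd, hc']
            ring
          rw [h5, h6]
          push_cast
          simp

end Pool.Agent.helper76.MC
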